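import Pool.Agent.H22.FOT.Defs2

/-! Row CYE of the board `fog`: the cycle without weights. -/

open MeasureTheory unitInterval Set Filter Topology

namespace Pool.FOT.CYErow

/-- A bounded measurable function is integrable. -/
theorem intg {X : Type} [MeasurableSpace X] (μ : Measure X) [IsProbabilityMeasure μ] {g : X → ℝ}
    (hg : Measurable g) {C : ℝ} (hC : ∀ x, |g x| ≤ C) : Integrable g μ :=
  Integrable.of_bound hg.aestronglyMeasurable C (Filter.Eventually.of_forall hC)

variable {Ω : Type} [MeasurableSpace Ω] (μ : Measure Ω) [IsProbabilityMeasure μ] (f : Ω → Ω → ℝ)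

/-- The list of ones. -/
noncomputable abbrev on (n : ℕ) : List (Ω → ℝ) := List.replicate n fun _ => 1

theorem wok_on (n : ℕ) : WOk (on (Ω := Ω) n) := by
  intro τ hτ
  rw [List.eq_of_mem_replicate hτ]
  exact ⟨measurable_const, fun x => by simp⟩

theorem wok_one : WOk [fun _ : Ω => (1 : ℝ)] := wok_on 1

/-- Integrating along a path. -/
theorem path_int (hPTB : PTBStmt) (hs : ∀ x y, f x y = f y x)
    (hf : Measurable fun z : Ω × Ω => f z.1 z.2) (hb : ∀ x y, |f x y| ≤ 1) (n : ℕ) :
    ∀ G : Ω → Ω → ℝ, Measurable (fun z : Ω × Ω => G z.1 z.2) → (∀ x y, |G x y| ≤ 1) →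
    ∫ y : Fin (n + 2) → Ω, G (y 0) (y (Fin.last (n + 1))) *
      ∏ i : Fin (n + 1), f (y i.castSucc) (y i.succ) ∂(Measure.pi fun _ => μ) =
    ∫ z : Ω × Ω, G z.1 z.2 * pth μ f (on n) z.1 z.2 ∂(μ.prod μ) := by
  induction n with
  | zero =>
    intro G hG hGb
    have h := (measurePreserving_finTwoArrow μ).integral_comp
      (MeasurableEquiv.finTwoArrow (α := Ω)).measurableEmbedding
      (fun z : Ω × Ω => G z.1 z.2 * f z.1 z.2)
    rw [show (fun z : Ω × Ω => G z.1 z.2 * pth μ f (on 0) z.1 z.2) =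
      fun z : Ω × Ω => G z.1 z.2 * f z.1 z.2 from rfl, ← h]
    refine integral_congr_ae (Filter.Eventually.of_forall fun y => ?_)
    simp
  | succ n ih =>
    intro G hG hGb
    obtain ⟨hp1, hp2⟩ := hPTB Ω μ f hs hf hb
    obtain ⟨hm, hbd, -⟩ := hp1 (on n) (wok_on n)
    -- split off the first coordinate
    have hsp := (measurePreserving_piFinSuccAbove (fun _ : Fin (n + 3) => μ) 0).symm
    have h1 := hsp.integral_comp
      (MeasurableEquiv.piFinSuccAbove (fun _ : Fin (n + 3) => Ω) 0).symm.measurableEmbedding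
      (fun y : Fin (n + 3) → Ω => G (y 0) (y (Fin.last (n + 2))) *
      ∏ i : Fin (n + 2), f (y i.castSucc) (y i.succ))
    rw [← h1]
    have h2 : (fun z : Ω × (Fin (n + 2) → Ω) => (fun y : Fin (n + 3) → Ω =>
        G (y 0) (y (Fin.last (n + 2))) * ∏ i : Fin (n + 2), f (y i.castSucc) (y i.succ))
        ((MeasurableEquiv.piFinSuccAbove (fun _ : Fin (n + 3) => Ω) 0).symm z)) =
        fun z => (G z.1 (z.2 (Fin.last (n + 1))) * f z.1 (z.2 0)) *
          ∏ i : Fin (n + 1), f (z.2 i.castSucc) (z.2 i.succ) := by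
      funext z
      obtain ⟨x, y⟩ := z
      have e : (MeasurableEquiv.piFinSuccAbove (fun _ : Fin (n + 3) => Ω) 0).symm (x, y) =
        Fin.cons x y := by
        rw [← Fin.insertNth_zero']
        rfl
      simp only [e]
      rw [Fin.prod_univ_succ]
      have e1 : (Fin.cons x y : Fin (n + 3) → Ω) (Fin.last (n + 2)) = y (Fin.last (n + 1)) := by
        rw [← Fin.succ_last, Fin.cons_succ]
      have e2 : (Fin.cons x y : Fin (n + 3) → Ω) (Fin.castSucc (0 : Fin (n + 2))) = x := by
        rw [Fin.castSucc_zero, Fin.cons_zero]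
      have e3 : ∀ i : Fin (n + 1), (Fin.cons x y : Fin (n + 3) → Ω) (Fin.castSucc i.succ) =
          y i.castSucc := by
        intro i
        rw [Fin.castSucc_succ, Fin.cons_succ]
      rw [e1, e2, Fin.cons_zero, Fin.cons_succ]
      simp only [e3, Fin.cons_succ]
      ring
    rw [h2]
    have hmy : ∀ k : Fin (n + 2), Measurable fun z : Ω × (Fin (n + 2) → Ω) => z.2 k :=
      fun k => (measurable_pi_apply k).comp measurable_snd
    have hmf : ∀ {X : Type} [MeasurableSpace X] {a b : X → Ω} {F : Ω → Ω → ℝ},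
        Measurable (fun z : Ω × Ω => F z.1 z.2) → Measurable a → Measurable b →
        Measurable fun z => F (a z) (b z) := by
      intro X _ a b F hF ha hb'
      exact Measurable.comp (g := fun z : Ω × Ω => F z.1 z.2) hF (ha.prodMk hb')
    have hi1 : Integrable (fun z : Ω × (Fin (n + 2) → Ω) =>
        (G z.1 (z.2 (Fin.last (n + 1))) * f z.1 (z.2 0)) *
          ∏ i : Fin (n + 1), f (z.2 i.castSucc) (z.2 i.succ))
        (μ.prod (Measure.pi fun _ => μ)) := by
      refine intg _ ?_ (C := 1) ?_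
      · refine ((hmf hG measurable_fst (hmy _)).mul (hmf hf measurable_fst (hmy _))).mul ?_
        exact Finset.measurable_prod _ fun i _ => hmf hf (hmy _) (hmy _)
      · intro z
        rw [abs_mul, abs_mul, Finset.abs_prod]
        have h5 : ∏ i : Fin (n + 1), |f (z.2 i.castSucc) (z.2 i.succ)| ≤ 1 :=
          Finset.prod_le_one (fun _ _ => abs_nonneg _) fun _ _ => hb _ _
        have h6 : 0 ≤ ∏ i : Fin (n + 1), |f (z.2 i.castSucc) (z.2 i.succ)| :=
          Finset.prod_nonneg fun _ _ => abs_nonneg _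
        have h7 := mul_le_one₀ (hGb z.1 (z.2 (Fin.last (n + 1)))) (abs_nonneg _) (hb z.1 (z.2 0))
        exact mul_le_one₀ h7 h6 h5
    rw [show (fun i : Fin (n + 2) => μ) = fun _ => μ from rfl]
    rw [show (∫ z : Ω × (Fin (n + 2) → Ω), (G z.1 (z.2 (Fin.last (n + 1))) * f z.1 (z.2 0)) *
          ∏ i : Fin (n + 1), f (z.2 i.castSucc) (z.2 i.succ)
          ∂(μ.prod (Measure.pi fun _ => μ))) =
        ∫ x, ∫ y : Fin (n + 2) → Ω, (G x (y (Fin.last (n + 1))) * f x (y 0)) *
          ∏ i : Fin (n + 1), f (y i.castSucc) (y i.succ) ∂(Measure.pi fun _ => μ) ∂μ from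
        integral_prod _ hi1]
    have h3 : ∀ x : Ω, ∫ y : Fin (n + 2) → Ω, (G x (y (Fin.last (n + 1))) * f x (y 0)) *
          ∏ i : Fin (n + 1), f (y i.castSucc) (y i.succ) ∂(Measure.pi fun _ => μ) =
        ∫ z : Ω × Ω, (G x z.2 * f x z.1) * pth μ f (on n) z.1 z.2 ∂(μ.prod μ) := by
      intro x
      refine ih (fun u v => G x v * f x u) ?_ ?_
      · exact (hmf hG measurable_const measurable_snd).mul
          (hmf hf measurable_const measurable_fst)
      · intro u v
        rw [abs_mul]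
        exact mul_le_one₀ (hGb _ _) (abs_nonneg _) (hb _ _)
    simp only [h3]
    have hi2 : Integrable (fun z : Ω × Ω => G z.1 z.2 * pth μ f (on (n + 1)) z.1 z.2)
        (μ.prod μ) := by
      obtain ⟨hm', hbd', -⟩ := hp1 (on (n + 1)) (wok_on (n + 1))
      refine intg _ (hG.mul hm') (C := 1) fun z => ?_
      rw [abs_mul]
      exact mul_le_one₀ (hGb _ _) (abs_nonneg _) (hbd' _ _)
    rw [integral_prod _ hi2]
    refine integral_congr_ae (Filter.Eventually.of_forall fun x => ?_)
    show ∫ z : Ω × Ω, (G x z.2 * f x z.1) * pth μ f (on n) z.1 z.2 ∂(μ.prod μ) =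
      ∫ v, G x v * pth μ f (on (n + 1)) x v ∂μ
    have hi3 : Integrable (fun z : Ω × Ω => (G x z.2 * f x z.1) * pth μ f (on n) z.1 z.2)
        (μ.prod μ) := by
      refine intg _ (((hmf hG measurable_const measurable_snd).mul
          (hmf hf measurable_const measurable_fst)).mul hm) (C := 1) fun z => ?_
      rw [abs_mul, abs_mul]
      exact mul_le_one₀ (mul_le_one₀ (hGb _ _) (abs_nonneg _) (hb _ _)) (abs_nonneg _) (hbd _ _)
    rw [integral_prod_symm _ hi3]
    refine integral_congr_ae (Filter.Eventually.of_forall fun v => ?_)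
    show ∫ u, (G x v * f x u) * pth μ f (on n) u v ∂μ = G x v * pth μ f (on (n + 1)) x v
    rw [show pth μ f (on (n + 1)) x v = ∫ u, f x u * (1 * pth μ f (on n) u v) ∂μ from rfl,
      ← integral_const_mul]
    refine integral_congr_ae (Filter.Eventually.of_forall fun u => ?_)
    show (G x v * f x u) * pth μ f (on n) u v = G x v * (f x u * (1 * pth μ f (on n) u v))
    ring

end Pool.FOT.CYErow

namespace Pool.FOT

open CYErow

theorem t_cye (hPTB : PTBStmt) : CYEStmt := by
  intro Ω _ μ _ f hs hf hb n r hr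
  obtain ⟨hp1, hp2⟩ := hPTB Ω μ f hs hf hb
  obtain ⟨k, rfl⟩ : ∃ k, r = k + 2 := ⟨r - 2, by omega⟩
  have hn : n + 1 = (k + 1) + 1 + k := by omega
  have h0 : cyc μ f n (fun _ _ => 1) = ∫ y : Fin (n + 1 + 2) → Ω,
      (fun x v => f v x) (y 0) (y (Fin.last (n + 1 + 1))) *
      ∏ i : Fin (n + 1 + 1), f (y i.castSucc) (y i.succ) ∂(Measure.pi fun _ => μ) := by
    unfold cyc
    refine integral_congr_ae (Filter.Eventually.of_forall fun y => ?_)
    show ∏ i : Fin (n + 3), (1 * f (y i) (y (i + 1))) = f (y (Fin.last (n + 2))) (y 0) *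
      ∏ i : Fin (n + 2), f (y i.castSucc) (y i.succ)
    rw [Fin.prod_univ_castSucc, Fin.last_add_one, mul_comm, one_mul]
    congr 1
    refine Finset.prod_congr rfl fun i _ => ?_
    rw [Fin.coeSucc_eq_succ, one_mul]
  rw [h0, path_int μ f hPTB hs hf hb (n + 1) (fun x v => f v x) (hf.comp measurable_swap)
    fun x y => hb y x]
  have hon : on (Ω := Ω) (n + 1) = on (k + 1) ++ (fun _ => (1 : ℝ)) :: on k := by
    rw [hn]
    unfold on
    rw [show k + 1 + 1 + k = (k + 1) + (k + 1) by omega, List.replicate_add]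
    rfl
  obtain ⟨hm1, hb1, hr1⟩ := hp1 (on (k + 1)) (wok_on _)
  obtain ⟨hm0, hb0, -⟩ := hp1 (on k) (wok_on _)
  have hsym : ∀ x y, pth μ f (on (k + 1)) x y = pth μ f (on (k + 1)) y x := by
    intro x y
    have := hr1 x y
    rwa [List.reverse_replicate] at this
  have hd1 : ∀ x v, pth μ f (on (n + 1)) x v =
      ∫ w, pth μ f (on (k + 1)) x w * (1 * pth μ f (on k) w v) ∂μ := by
    intro x v
    rw [hon]
    exact hp2 (on (k + 1)) (fun _ => 1) (on k) (wok_on _) wok_one (wok_on _) x v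
  have hd2 : ∀ w x, pth μ f (on (k + 1)) w x = ∫ v, pth μ f (on k) w v * (1 * f v x) ∂μ := by
    intro w x
    have h := hp2 (on k) (fun _ => 1) [] (wok_on _) wok_one (fun τ hτ => by simp at hτ) w x
    have e : on (Ω := Ω) (k + 1) = on k ++ [fun _ => (1 : ℝ)] := by
      unfold on
      rw [List.replicate_succ']
    rw [e, h]
    rfl
  obtain ⟨hm2, hb2, -⟩ := hp1 (on (n + 1)) (wok_on _)
  have hi2 : Integrable (fun z : Ω × Ω => f z.2 z.1 * pth μ f (on (n + 1)) z.1 z.2)
      (μ.prod μ) := by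
    refine intg _ ((hf.comp measurable_swap).mul hm2) (C := 1) fun z => ?_
    rw [abs_mul]
    exact mul_le_one₀ (hb _ _) (abs_nonneg _) (hb2 _ _)
  unfold cyT pN
  show ∫ z : Ω × Ω, f z.2 z.1 * pth μ f (on (n + 1)) z.1 z.2 ∂(μ.prod μ) =
    ∫ z : Ω × Ω, pth μ f (on (k + 1)) z.1 z.2 ^ 2 ∂(μ.prod μ)
  have hi4 : Integrable (fun z : Ω × Ω => pth μ f (on (k + 1)) z.1 z.2 ^ 2) (μ.prod μ) := by
    refine intg _ (hm1.pow_const 2) (C := 1) fun z => ?_
    rw [abs_pow]
    exact pow_le_one₀ (abs_nonneg _) (hb1 _ _)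
  rw [integral_prod _ hi2, integral_prod _ hi4]
  refine integral_congr_ae (Filter.Eventually.of_forall fun x => ?_)
  show ∫ v, f v x * pth μ f (on (n + 1)) x v ∂μ = ∫ w, pth μ f (on (k + 1)) x w ^ 2 ∂μ
  have hmf : ∀ {X : Type} [MeasurableSpace X] {a b : X → Ω} {F : Ω → Ω → ℝ},
      Measurable (fun z : Ω × Ω => F z.1 z.2) → Measurable a → Measurable b →
      Measurable fun z => F (a z) (b z) := by
    intro X _ a b F hF ha hb'
    exact Measurable.comp (g := fun z : Ω × Ω => F z.1 z.2) hF (ha.prodMk hb')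
  have hi5 : Integrable (fun z : Ω × Ω => f z.1 x * (pth μ f (on (k + 1)) x z.2 *
      (1 * pth μ f (on k) z.2 z.1))) (μ.prod μ) := by
    refine intg _ ((hmf hf measurable_fst measurable_const).mul
      ((hmf hm1 measurable_const measurable_snd).mul
        (measurable_const.mul (hmf hm0 measurable_snd measurable_fst)))) (C := 1) fun z => ?_
    rw [abs_mul, abs_mul, one_mul]
    exact mul_le_one₀ (hb _ _) (by positivity) (mul_le_one₀ (hb1 _ _) (abs_nonneg _) (hb0 _ _))
  have e1 : ∫ v, f v x * pth μ f (on (n + 1)) x v ∂μ =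
      ∫ v, ∫ w, f v x * (pth μ f (on (k + 1)) x w * (1 * pth μ f (on k) w v)) ∂μ ∂μ := by
    refine integral_congr_ae (Filter.Eventually.of_forall fun v => ?_)
    show f v x * pth μ f (on (n + 1)) x v =
      ∫ w, f v x * (pth μ f (on (k + 1)) x w * (1 * pth μ f (on k) w v)) ∂μ
    rw [integral_const_mul, hd1]
  rw [e1, integral_integral_swap hi5]
  refine integral_congr_ae (Filter.Eventually.of_forall fun w => ?_)
  show ∫ v, f v x * (pth μ f (on (k + 1)) x w * (1 * pth μ f (on k) w v)) ∂μ =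
    pth μ f (on (k + 1)) x w ^ 2
  have e2 : ∫ v, f v x * (pth μ f (on (k + 1)) x w * (1 * pth μ f (on k) w v)) ∂μ =
      pth μ f (on (k + 1)) x w * ∫ v, pth μ f (on k) w v * (1 * f v x) ∂μ := by
    rw [← integral_const_mul]
    refine integral_congr_ae (Filter.Eventually.of_forall fun v => ?_)
    show f v x * (pth μ f (on (k + 1)) x w * (1 * pth μ f (on k) w v)) =
      pth μ f (on (k + 1)) x w * (pth μ f (on k) w v * (1 * f v x))
    ring
  rw [e2, ← hd2, hsym w x]
  ring

end Pool.FOT
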