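import Pool.Agent.H22.FOT.Defs2

/-! Row EGD of the board `fog`: even girth, replica symmetry near `q = 1`. -/

open MeasureTheory unitInterval Set Filter Topology

namespace Pool.FOT

open Pool.Agent.H99.LowerTail

theorem t_egd (hLSD : LSDStmt) (hJEN : JENStmt) : EGDStmt := by
  intro V _ H hev hH
  obtain ⟨δ0, hδ0, hloc⟩ := hLSD V H hev
  refine ⟨max (1 - δ0) (1 / 2), lt_of_lt_of_le (by norm_num) (le_max_right _ _),
    max_lt (by linarith) (by norm_num), fun p q hq0 hqp hp1 W hW => ?_⟩
  have h1 : 1 - δ0 ≤ q := (le_max_left _ _).trans hq0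
  have h2 : 1 / 2 ≤ q := (le_max_right _ _).trans hq0
  have hq : 0 < q := by linarith
  have hp : 0 < p := by linarith
  have hm0 : 0 ≤ mean W := integral_nonneg fun z => W.nonneg' _ _
  have hm : mean W ≤ q := by
    by_contra hcon
    rw [not_le] at hcon
    have h3 := hloc W (by linarith)
    have h4 : q ^ numEdges H < mean W ^ numEdges H := pow_lt_pow_left₀ hcon hq.le hH.ne'
    linarith
  have h5 : relEnt p q ≤ relEnt p (mean W) :=
    (relEnt_strictAntiOn hp hp1).antitoneOn ⟨hm0, hm.trans hqp⟩ ⟨hq.le, hqp⟩ hm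
  exact h5.trans (hJEN p W hp hp1)

end Pool.FOT
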