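import Pool.Agent.H22.FOT.Defs2

/-! Row MN2 of the board `fog`: final statement of the second part. -/

open MeasureTheory unitInterval Set Filter Topology

namespace Pool.FOT

open Pool.Agent.H99.LowerTail

theorem t_mn2 (hMAIN : MAINStmt) (hEGD : EGDStmt) : MN2Stmt := by
  intro V _ H hbot
  obtain ⟨ρ, h1, h2, h3, -, h5, h6⟩ := hMAIN V H hbot
  refine ⟨ρ, h1, h2, h3, h5, h6, fun hev => ?_⟩
  have hH : 0 < numEdges H := by
    classical
    rw [numEdges_eq, Finset.card_pos]
    by_contra hne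
    rw [Finset.not_nonempty_iff_eq_empty] at hne
    unfold edges at hne
    exact hbot (SimpleGraph.edgeFinset_eq_empty.1 hne)
  obtain ⟨q0, hq0, hq01, hq⟩ := hEGD V H hev hH
  refine ⟨q0, hq01, fun p hp => ?_⟩
  rcases le_or_gt q0 p with h | h
  · exact (h2 p q0 hq0 h hp.2).1.1 (hq p q0 le_rfl h hp.2)
  · have := (h1 p hp).2
    have hp0 := hp.1
    nlinarith

end Pool.FOT
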